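import Pool.Agent.Q266.AV.Claw

/-!
# The classes of arc `k`-visibility graphs are pairwise incomparable

For all `i ≠ j` there is an arc `j`-visibility graph which is not an arc `i`-visibility graph. The
definitions (`ArcRep`, `IsArcVisibility`) are in `Pool.Agent.Q266.AV.Defs`. The result holds under
each of the four conventions on arcs: arcs with one point admitted or not, whole circles admitted or
not.

Idea of the proof.

* `i < j`: complete graphs. Rotate a line of sight of two arcs until its left view changes. At this
  moment the line passes through an endpoint of an arc `w` which is one of the two arcs or lies
  between them, and the two arcs are among the `k + 2` nearest ones to this endpoint. So only
  boundedly many pairs belong to each `w`, and a complete arc `k`-visibility graph has boundedly many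
  vertices (`clique_bound`). Let `N` be the largest number of vertices of a complete graph in the
  class for `i`. Doubling an arc of a representation (a second arc with the same angles and a
  slightly larger radius) puts the complete graph with `N + 1` vertices into the class for `i + 1`,
  so into the class for `j` (`case_lt`).
* `i > j`: the join of the subdivided claw `T` with the complete graph with `j` vertices. It is in
  the class for `j` (`clawRep`): the `j` further vertices are long arcs between the last leaf of `T`
  and the rest of `T`. It has no clique with `i + 2` vertices. In a representation for `i` the `i + 2`
  first arcs of a line would form such a clique, so every line meets at most `i + 1` arcs, two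
  vertices are adjacent if and only if some line meets both arcs, and the graph is an intersection
  graph of arcs of the circle of the lines through `O`. But `T` is not (`not_circular`): of the three
  disjoint arcs of the leaves in the gap of the arc of the centre one is in the middle (`case_gt`).
-/

set_option autoImplicit false

namespace Pool.Agent.Results.MP_73fdb2_co.Incomparable

open Pool.Agent.Q266.AV

/-- For all `i ≠ j` some finite graph is an arc `j`-visibility graph and not an arc `i`-visibility
graph, whether or not one-point arcs (`points`) and whole circles (`circles`) are admitted. -/
theorem result (points circles : Prop) (i j : ℕ) (hij : i ≠ j) :
    ∃ (V : Type) (_ : Fintype V) (G : SimpleGraph V),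
      IsArcVisibility points circles j G ∧ ¬ IsArcVisibility points circles i G :=
  incomparable points circles i j hij

end Pool.Agent.Results.MP_73fdb2_co.Incomparable
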